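import Pool.Agent.Lib.MP_9550e9_co.Final

namespace Pool.Agent.Results.MP_9550e9_co.AvgDegree

open Pool.Agent.Lib.MP_9550e9_co

/-- Large simple 3-connected `k`-crossing-critical graphs have average degree above `3 + g k`. -/
theorem result : ∃ (g : ℕ → ℝ) (N : ℕ → ℕ), (∀ k, 0 < g k) ∧
    ∀ (k : ℕ) (V : Type) [Finite V] (G : SimpleGraph V), ThreeConnected G →
      CrossingCritical G k → N k < Nat.card V →
      3 + g k < 2 * (G.edgeSet.ncard : ℝ) / Nat.card V :=
  avg_degree

end Pool.Agent.Results.MP_9550e9_co.AvgDegree
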